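import Mathlib

set_option autoImplicit false

/-!
# Indecomposable cycle sets with cycles of length coprime to the size: all pairs

Let `R` be a finite commutative ring in which `n = 0` and let `m` be a unit of `R` such that
`1 - m` is a unit.  On the functions `ZMod n → R` put
`(x · y) i = m * y i + (i + 1) * y (i + 1) + x (i + 1)`.
(These are the polynomials in `R[t] / (t ^ n - 1)` with `x · y = m y + dy/dt + t⁻¹ x`.)
This is an indecomposable cycle set with `|R| ^ n` elements, and every left multiplication has a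
cycle whose length is the order of `m`.
-/

namespace Pool.Agent.Results.MP_6d14ae_al.AllCoprimePairs

universe u

/-- A cycle set structure on `X`: all left multiplications are bijective and
`(x · y) · (x · z) = (y · x) · (y · z)`. -/
structure CycleSet (X : Type u) where
  /-- the operation -/
  op : X → X → X
  /-- left multiplications are bijective -/
  bij : ∀ x, Function.Bijective (op x)
  /-- the cycle set identity -/
  cyc : ∀ x y z, op (op x y) (op x z) = op (op y x) (op y z)

/-- A cycle set is decomposable if it is the disjoint union of nonempty sets `Y`, `Z` with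
`Y · Z ⊆ Z` and `Z · Y ⊆ Y`. -/
def Decomposable {X : Type u} (C : CycleSet X) : Prop :=
  ∃ Y Z : Set X, Y.Nonempty ∧ Z.Nonempty ∧ Y ∪ Z = Set.univ ∧ Disjoint Y Z ∧
    (∀ y ∈ Y, ∀ z ∈ Z, C.op y z ∈ Z) ∧ (∀ z ∈ Z, ∀ y ∈ Y, C.op z y ∈ Y)

/-- The left multiplication by `x` contains a cycle of length `k`; fixed points are not counted. -/
def HasCycle {X : Type u} (C : CycleSet X) (x : X) (k : ℕ) : Prop :=
  2 ≤ k ∧ ∃ y, Function.minimalPeriod (C.op x) y = k

section construction

variable {n : ℕ} {R : Type} [CommRing R] [Algebra (ZMod n) R]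

/-- the operation on functions -/
def op (m : R) (x y : ZMod n → R) : ZMod n → R := fun i =>
  m * y i + algebraMap (ZMod n) R (i + 1) * y (i + 1) + x (i + 1)

theorem op_cyc (m : R) (x y z : ZMod n → R) :
    op m (op m x y) (op m x z) = op m (op m y x) (op m y z) := by
  funext i
  have h : algebraMap (ZMod n) R (i + 1 + 1) = algebraMap (ZMod n) R (i + 1) + 1 := by
    rw [map_add _ (i + 1) 1, map_one]
  simp only [op, h]
  ring

/-- `u + s d/dt` is injective when `u` is a unit. -/
theorem inj_aux [NeZero n] (u s : R) (hu : IsUnit u) (f : ZMod n → R)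
    (h : ∀ i, u * f i + s * (algebraMap (ZMod n) R (i + 1) * f (i + 1)) = 0) : f = 0 := by
  have key : ∀ j : ℕ, f (-1 - (j : ZMod n)) = 0 := by
    intro j
    induction j with
    | zero =>
      have h1 := h (-1)
      rw [neg_add_cancel, map_zero, zero_mul, mul_zero, add_zero] at h1
      rw [Nat.cast_zero, sub_zero]
      exact (hu.mul_right_eq_zero).1 h1
    | succ j ih =>
      have h1 := h (-1 - ((j + 1 : ℕ) : ZMod n))
      have e : (-1 - ((j + 1 : ℕ) : ZMod n)) + 1 = -1 - (j : ZMod n) := by
        push_cast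
        ring
      rw [e, ih, mul_zero, mul_zero, add_zero] at h1
      exact (hu.mul_right_eq_zero).1 h1
  funext i
  have h2 := key ((-1 - i).val)
  rw [ZMod.natCast_zmod_val] at h2
  have e : -1 - (-1 - i) = i := by ring
  rw [e] at h2
  exact h2

theorem op_injective [NeZero n] (m : R) (hm : IsUnit m) (x : ZMod n → R) :
    Function.Injective (op m x) := by
  intro y z h
  have h0 : y - z = 0 := by
    apply inj_aux m 1 hm
    intro i
    have := congrFun h i
    simp only [op] at this
    simp only [Pi.sub_apply]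
    linear_combination this
  exact sub_eq_zero.1 h0

/-- the cycle set -/
def CS [NeZero n] [Finite R] (m : R) (hm : IsUnit m) : CycleSet (ZMod n → R) where
  op := op m
  bij x := Finite.injective_iff_bijective.mp (op_injective m hm x)
  cyc := op_cyc m

/-- The elements act transitively, even in one step. -/
theorem one_step (m : R) (p q : ZMod n → R) : ∃ x, op m x p = q := by
  refine ⟨fun i => q (i - 1) - m * p (i - 1) - algebraMap (ZMod n) R i * p i, ?_⟩
  funext i
  simp only [op]
  rw [add_sub_cancel_right]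
  ring

theorem not_decomposable [NeZero n] [Finite R] (m : R) (hm : IsUnit m) :
    ¬ Decomposable (CS (n := n) m hm) := by
  rintro ⟨Y, Z, ⟨p, hp⟩, ⟨q, hq⟩, hu, hd, hYZ, hZY⟩
  have hmem : ∀ x, x ∈ Y ∨ x ∈ Z := fun x => by
    have : x ∈ Y ∪ Z := by rw [hu]; trivial
    exact this
  have hdis : ∀ x, x ∈ Y → x ∈ Z → False := fun x h1 h2 => Set.disjoint_left.mp hd h1 h2
  have hY : ∀ x y, y ∈ Y → op m x y ∈ Y := by
    intro x y hy
    rcases hmem x with hx | hx
    · rcases hmem (op m x y) with h | h
      · exact h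
      · exfalso
        have hsub : op m x '' Z ⊆ Z := by
          rintro _ ⟨z, hz, rfl⟩
          exact hYZ x hx z hz
        have himg : op m x '' Z = Z := by
          apply Set.eq_of_subset_of_ncard_le hsub _ (Set.toFinite Z)
          rw [Set.ncard_image_of_injective Z (op_injective m hm x)]
        rw [← himg] at h
        obtain ⟨z, hz, hzy⟩ := h
        have := op_injective m hm x hzy
        subst this
        exact hdis z hy hz
    · exact hZY x hx y hy
  obtain ⟨x, hx⟩ := one_step m p q
  apply hdis q _ hq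
  rw [← hx]
  exact hY _ _ hp

/-- Every left multiplication has a fixed point. -/
theorem exists_fixed [NeZero n] [Finite R] (m : R) (hm1 : IsUnit (1 - m)) (x : ZMod n → R) :
    ∃ y, op m x y = y := by
  have hinj : Function.Injective (fun y : ZMod n → R => y - op m x y) := by
    intro y z h
    have h0 : y - z = 0 := by
      apply inj_aux (1 - m) (-1) hm1
      intro i
      have := congrFun h i
      simp only [op, Pi.sub_apply] at this
      simp only [Pi.sub_apply]
      linear_combination this
    exact sub_eq_zero.1 h0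
  obtain ⟨y, hy⟩ := (Finite.injective_iff_surjective.1 hinj) 0
  exact ⟨y, (sub_eq_zero.1 hy).symm⟩

theorem iterate_eq (m : R) (x y : ZMod n → R) (hy : op m x y = y) (j : ℕ) :
    (op m x)^[j] (y + Pi.single 0 1) = y + Pi.single 0 (m ^ j) := by
  induction j with
  | zero => simp
  | succ j ih =>
    rw [Function.iterate_succ_apply', ih]
    funext i
    have h1 := congrFun hy i
    simp only [op] at h1
    simp only [op, Pi.add_apply]
    have h2 : algebraMap (ZMod n) R (i + 1) * (Pi.single 0 (m ^ j) : ZMod n → R) (i + 1) = 0 := by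
      by_cases h : i + 1 = 0
      · rw [h, map_zero, zero_mul]
      · rw [Pi.single_eq_of_ne h, mul_zero]
    have h3 : m * (Pi.single 0 (m ^ j) : ZMod n → R) i = (Pi.single 0 (m ^ (j + 1)) : ZMod n → R) i := by
      by_cases h : i = 0
      · subst h
        rw [Pi.single_eq_same, Pi.single_eq_same, pow_succ']
      · rw [Pi.single_eq_of_ne h, Pi.single_eq_of_ne h, mul_zero]
    linear_combination h1 + h2 + h3

theorem has_cycle [NeZero n] [Finite R] (m : R) (hm : IsUnit m) (hm1 : IsUnit (1 - m))
    (hk : 2 ≤ orderOf m) (x : ZMod n → R) : HasCycle (CS (n := n) m hm) x (orderOf m) := by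
  refine ⟨hk, ?_⟩
  obtain ⟨y, hy⟩ := exists_fixed m hm1 x
  refine ⟨y + Pi.single 0 1, ?_⟩
  have hiff : ∀ j : ℕ, Function.IsPeriodicPt (op m x) j (y + Pi.single 0 1) ↔ m ^ j = 1 := by
    intro j
    unfold Function.IsPeriodicPt Function.IsFixedPt
    rw [iterate_eq m x y hy j, add_right_inj]
    constructor
    · intro h
      have := congrFun h 0
      rwa [Pi.single_eq_same, Pi.single_eq_same] at this
    · intro h
      rw [h]
  apply Nat.dvd_antisymm
  · apply Function.IsPeriodicPt.minimalPeriod_dvd
    exact (hiff _).2 (pow_orderOf_eq_one m)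
  · apply orderOf_dvd_of_pow_eq_one
    exact (hiff _).1 (Function.isPeriodicPt_minimalPeriod _ _)

end construction

/-- The general statement: a finite commutative ring with `n = 0` and a unit `m` of order `k`
such that `1 - m` is a unit gives a cycle set with `|R| ^ n` elements. -/
theorem general (n k : ℕ) (hn : n ≠ 0) (R : Type) [CommRing R] [Algebra (ZMod n) R] [Finite R]
    (m : R) (hm : IsUnit m) (hm1 : IsUnit (1 - m)) (hk : 2 ≤ k) (ho : orderOf m = k)
    (hc : Nat.Coprime k (Nat.card R)) :
    ∃ (X : Type) (_ : Fintype X) (C : CycleSet X), Fintype.card X = Nat.card R ^ n ∧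
      Nat.Coprime k (Fintype.card X) ∧ ¬ Decomposable C ∧ (∀ x, HasCycle C x k) ∧
      (∀ p q, ∃ x, C.op x p = q) ∧ Function.Injective C.op := by
  have : NeZero n := ⟨hn⟩
  classical
  haveI : Fintype R := Fintype.ofFinite R
  have hcard : Fintype.card (ZMod n → R) = Nat.card R ^ n := by
    rw [Fintype.card_fun, ZMod.card, Nat.card_eq_fintype_card]
  refine ⟨ZMod n → R, inferInstance, CS m hm, hcard, ?_, not_decomposable m hm, ?_, ?_, ?_⟩
  · rw [hcard]
    exact Nat.Coprime.pow_right n hc
  · intro x
    rw [← ho]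
    exact has_cycle m hm hm1 (by rw [ho]; exact hk) x
  · exact one_step m
  · intro x y h
    funext i
    have h1 := congrFun (congrFun h 0) (i - 1)
    simp only [CS, op, Pi.zero_apply, mul_zero, zero_add, sub_add_cancel] at h1
    exact h1

open Polynomial

/-- A finite commutative ring with `n = 0`, with `n ^ (k - 1)` elements, and with a unit `m` of
order `k` such that `1 - m` is a unit. -/
theorem exists_ring (n k : ℕ) (hn : 2 ≤ n) (hk : 2 ≤ k) (hc : Nat.Coprime n k) :
    ∃ (R : Type) (_ : CommRing R) (_ : Algebra (ZMod n) R) (_ : Finite R) (m : R),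
      IsUnit m ∧ IsUnit (1 - m) ∧ orderOf m = k ∧ Nat.card R = n ^ (k - 1) := by
  have : NeZero n := ⟨by omega⟩
  have : Fact (1 < n) := ⟨by omega⟩
  set g : (ZMod n)[X] := ∑ i ∈ Finset.range k, X ^ i with hg
  have hk0 : k ≠ 0 := by omega
  have gmon : ∀ d : ℕ, d ≠ 0 → (∑ i ∈ Finset.range d, (X : (ZMod n)[X]) ^ i).Monic := by
    intro d hd
    exact Polynomial.monic_geom_sum_X hd
  have gdeg : ∀ d : ℕ, d ≠ 0 → (∑ i ∈ Finset.range d, (X : (ZMod n)[X]) ^ i).natDegree = d - 1 := by
    intro d hd
    apply Polynomial.natDegree_eq_of_le_of_coeff_ne_zero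
    · apply Polynomial.natDegree_sum_le_of_forall_le
      intro i hi
      have := Finset.mem_range.1 hi
      rw [Polynomial.natDegree_X_pow]
      omega
    · rw [Polynomial.finsetSum_coeff, Finset.sum_eq_single (d - 1)]
      · rw [Polynomial.coeff_X_pow, if_pos rfl]
        exact one_ne_zero
      · intro i _ hi
        rw [Polynomial.coeff_X_pow, if_neg (Ne.symm hi)]
      · intro h
        exact absurd (Finset.mem_range.2 (by omega)) h
  have hmon := gmon k hk0
  rw [← hg] at hmon
  have hdeg := gdeg k hk0
  rw [← hg] at hdeg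
  set R := AdjoinRoot g with hR
  let B := AdjoinRoot.powerBasis' hmon
  have hcardR : Nat.card R = n ^ (k - 1) := by
    have e := B.basis.equivFun.toEquiv
    rw [Nat.card_congr e, Nat.card_fun, Nat.card_zmod, Nat.card_eq_fintype_card, Fintype.card_fin]
    rw [AdjoinRoot.powerBasis'_dim, hdeg]
  have hfin : Finite R := Finite.of_equiv _ B.basis.equivFun.toEquiv.symm
  let m : R := AdjoinRoot.root g
  have hsum : ∑ i ∈ Finset.range k, m ^ i = 0 := by
    have h := AdjoinRoot.eval₂_root g
    rw [hg, Polynomial.eval₂_finsetSum] at h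
    simpa [m] using h
  have hpow : m ^ k = 1 := by
    have h := geom_sum_mul m k
    rw [hsum, zero_mul] at h
    exact (sub_eq_zero.1 h.symm)
  have hunit : ∀ d : ℕ, Nat.Coprime n d → IsUnit (d : R) := by
    intro d hd
    have h1 : IsUnit (d : ZMod n) := (ZMod.isUnit_iff_coprime d n).2 hd.symm
    have h2 := h1.map (algebraMap (ZMod n) R)
    rwa [map_natCast] at h2
  have hmu : IsUnit m := IsUnit.of_pow_eq_one hpow hk0
  have hm1 : IsUnit (1 - m) := by
    apply isUnit_of_dvd_unit _ (hunit k hc)
    have h1 : (k : R) = ∑ i ∈ Finset.range k, (1 - m ^ i) := by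
      rw [Finset.sum_sub_distrib, hsum, sub_zero]
      simp
    rw [h1]
    apply Finset.dvd_sum
    intro i _
    have := sub_dvd_pow_sub_pow 1 m i
    rwa [one_pow] at this
  refine ⟨R, inferInstance, inferInstance, hfin, m, hmu, hm1, ?_, hcardR⟩
  -- the order of `m`
  have hdvd : orderOf m ∣ k := orderOf_dvd_of_pow_eq_one hpow
  obtain ⟨c, hcd⟩ := hdvd
  set d := orderOf m with hd
  have hd0 : d ≠ 0 := by
    rintro h0
    rw [h0, zero_mul] at hcd
    exact hk0 hcd
  by_contra hne
  have hlt : d < k := lt_of_le_of_ne (Nat.le_of_dvd (by omega) ⟨c, hcd⟩) hne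
  have hsd : ∑ i ∈ Finset.range d, m ^ i = 0 := by
    have h1 : ∑ i ∈ Finset.range k, m ^ i = (c : R) * ∑ i ∈ Finset.range d, m ^ i := by
      have : ∀ e : ℕ, ∑ i ∈ Finset.range (d * e), m ^ i = (e : R) * ∑ i ∈ Finset.range d, m ^ i := by
        intro e
        induction e with
        | zero => simp
        | succ e ih =>
          rw [Nat.mul_succ, Finset.sum_range_add, ih]
          have h2 : ∀ i ∈ Finset.range d, m ^ (d * e + i) = m ^ i := by
            intro i _
            rw [pow_add, pow_mul, hd, pow_orderOf_eq_one, one_pow, one_mul]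
          rw [Finset.sum_congr rfl h2]
          push_cast
          ring
      rw [hcd, this c]
    rw [hsum] at h1
    have hcu : IsUnit (c : R) := hunit c (Nat.Coprime.coprime_dvd_right ⟨d, by rw [hcd, mul_comm]⟩ hc)
    exact (hcu.mul_right_eq_zero).1 h1.symm
  have hdvd2 : g ∣ ∑ i ∈ Finset.range d, (X : (ZMod n)[X]) ^ i := by
    rw [← AdjoinRoot.mk_eq_zero, map_sum]
    simpa [m] using hsd
  refine Polynomial.Monic.not_dvd_of_natDegree_lt hmon (gmon d hd0).ne_zero ?_ hdvd2
  rw [gdeg d hd0, hdeg]
  omega

/-- **Every length and every set of primes.**  (0) The answer to Q1 is negative.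
(1) For all coprime `n, k ≥ 2` there is an
indecomposable cycle set with `n ^ (n (k - 1))` elements in which every left multiplication
contains a cycle of length `k`.  (2) For every prime power `p ^ r` and every divisor `k ≥ 2` of
`p ^ r - 1` there is such a cycle set with `p ^ (r p)` elements.  In both cases `k` is coprime to
the number of elements, for all `p, q` there is `x` with `x · p = q`, and different elements have
different left multiplications.  (3) A number `k ≥ 2` and a finite set `S` of primes are realised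
by some finite indecomposable cycle set (`S` is the set of prime divisors of its size and some
left multiplication contains a cycle of length `k` coprime to the size) if and only if
`S` is not empty and no prime of `S` divides `k`. -/
theorem result :
    (¬ ∀ (X : Type) (_ : Fintype X) (C : CycleSet X) (x : X) (k : ℕ), HasCycle C x k →
      Nat.Coprime k (Fintype.card X) → Decomposable C) ∧
    (∀ n k : ℕ, 2 ≤ n → 2 ≤ k → Nat.Coprime n k →
      ∃ (X : Type) (_ : Fintype X) (C : CycleSet X), Fintype.card X = n ^ (n * (k - 1)) ∧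
        Nat.Coprime k (Fintype.card X) ∧ ¬ Decomposable C ∧ (∀ x, HasCycle C x k) ∧
        (∀ p q, ∃ x, C.op x p = q) ∧ Function.Injective C.op) ∧
    (∀ p r k : ℕ, p.Prime → 0 < r → 2 ≤ k → k ∣ p ^ r - 1 →
      ∃ (X : Type) (_ : Fintype X) (C : CycleSet X), Fintype.card X = p ^ (r * p) ∧
        Nat.Coprime k (Fintype.card X) ∧ ¬ Decomposable C ∧ (∀ x, HasCycle C x k) ∧
        (∀ p q, ∃ x, C.op x p = q) ∧ Function.Injective C.op) ∧
    (∀ (k : ℕ) (S : Finset ℕ), 2 ≤ k → (∀ p ∈ S, p.Prime) →
      ((∃ (X : Type) (_ : Fintype X) (C : CycleSet X), (Fintype.card X).primeFactors = S ∧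
        Nat.Coprime k (Fintype.card X) ∧ ¬ Decomposable C ∧ ∃ x, HasCycle C x k) ↔
      S.Nonempty ∧ ∀ p ∈ S, ¬ p ∣ k)) := by
  have h1 : ∀ n k : ℕ, 2 ≤ n → 2 ≤ k → Nat.Coprime n k →
      ∃ (X : Type) (_ : Fintype X) (C : CycleSet X), Fintype.card X = n ^ (n * (k - 1)) ∧
        Nat.Coprime k (Fintype.card X) ∧ ¬ Decomposable C ∧ (∀ x, HasCycle C x k) ∧
        (∀ p q, ∃ x, C.op x p = q) ∧ Function.Injective C.op := by
    intro n k hn hk hc
    obtain ⟨R, i1, i2, i3, m, hm, hm1, ho, hcard⟩ := exists_ring n k hn hk hc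
    have h := general n k (by omega) R m hm hm1 hk ho
      (by rw [hcard]; exact Nat.Coprime.pow_right _ hc.symm)
    rw [hcard, ← pow_mul, mul_comm (k - 1) n] at h
    exact h
  refine ⟨?_, h1, ?_, ?_⟩
  · intro h
    obtain ⟨X, i1, C, -, a2, a3, a4, a5, -⟩ := h1 2 3 le_rfl (by norm_num) (by norm_num)
    by_cases hX : Nonempty X
    · obtain ⟨x⟩ := hX
      exact a3 (h X i1 C x 3 (a4 x) a2)
    · rw [not_nonempty_iff] at hX
      rw [Fintype.card_eq_zero] at a2
      norm_num at a2
  · intro p r k hp hr hk hdvd
    have : Fact p.Prime := ⟨hp⟩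
    let F := GaloisField p r
    haveI : Fintype F := Fintype.ofFinite F
    have hF : Nat.card F = p ^ r := GaloisField.card p r hr.ne'
    have hFu : Nat.card Fˣ = p ^ r - 1 := by
      rw [Nat.card_units, hF]
    obtain ⟨v, hv⟩ : ∃ v : Fˣ, orderOf v = k := by
      rw [← hFu] at hdvd
      obtain ⟨w, hw⟩ := IsCyclic.exists_ofOrder_eq_natCard (α := Fˣ)
      obtain ⟨c, hc⟩ := hdvd
      have hpos : 0 < Nat.card Fˣ := Nat.card_pos
      have hc0 : c ≠ 0 := by
        rintro rfl
        omega
      refine ⟨w ^ c, ?_⟩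
      rw [orderOf_pow_of_dvd hc0 (by rw [hw, hc]; exact dvd_mul_left c k), hw, hc]
      exact Nat.mul_div_cancel _ (Nat.pos_of_ne_zero hc0)
    have ho : orderOf (v : F) = k := by rw [orderOf_units, hv]
    have hm1 : IsUnit (1 - (v : F)) := by
      rw [isUnit_iff_ne_zero, sub_ne_zero]
      intro h
      rw [← h, orderOf_one] at ho
      omega
    have hq : 1 ≤ p ^ r := Nat.one_le_iff_ne_zero.2 (pow_ne_zero _ hp.ne_zero)
    have hcop : Nat.Coprime k (p ^ r) := by
      apply Nat.Coprime.coprime_dvd_left hdvd
      rw [Nat.coprime_comm]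
      have := (Nat.coprime_self_sub_right hq).2 (Nat.coprime_one_right (p ^ r))
      exact this
    have h := general p k hp.ne_zero F (v : F) v.isUnit hm1 hk ho (by rw [hF]; exact hcop)
    rw [hF, ← pow_mul] at h
    exact h
  · intro k S hk hS
    constructor
    · rintro ⟨X, _, C, hX, hc, hd, x, hx⟩
      constructor
      · rw [← hX, Finset.nonempty_iff_ne_empty, Ne, Nat.primeFactors_eq_empty, not_or]
        obtain ⟨-, y, hy⟩ := hx
        have hne : Nonempty X := ⟨x⟩
        refine ⟨Fintype.card_ne_zero, ?_⟩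
        intro h1
        have hsub : Subsingleton X := Fintype.card_le_one_iff_subsingleton.1 h1.le
        have : Function.minimalPeriod (C.op x) y = 1 :=
          Function.minimalPeriod_eq_one_iff_isFixedPt.2 (Subsingleton.elim _ _)
        omega
      · intro p hp hpk
        rw [← hX, Nat.mem_primeFactors] at hp
        exact Nat.not_coprime_of_dvd_of_dvd hp.1.one_lt hpk hp.2.1 hc
    · rintro ⟨hne, hpk⟩
      set n := ∏ p ∈ S, p with hn
      have hn0 : n ≠ 0 := Finset.prod_ne_zero_iff.2 fun p hp => (hS p hp).ne_zero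
      have hpf : n.primeFactors = S := Nat.primeFactors_prod hS
      have hn2 : 2 ≤ n := by
        obtain ⟨p, hp⟩ := hne
        exact (hS p hp).two_le.trans (Nat.le_of_dvd (Nat.pos_of_ne_zero hn0) (Finset.dvd_prod_of_mem _ hp))
      have hc : Nat.Coprime n k := by
        apply Nat.Coprime.prod_left
        intro p hp
        exact ((hS p hp).coprime_iff_not_dvd).2 (hpk p hp)
      obtain ⟨X, i1, C, a1, a2, a3, a4, a5, a6⟩ := h1 n k hn2 hk hc
      have hXne : Nonempty X := by
        rw [← Fintype.card_pos_iff, a1]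
        exact pow_pos (Nat.pos_of_ne_zero hn0) _
      obtain ⟨x⟩ := hXne
      refine ⟨X, i1, C, ?_, a2, a3, x, a4 x⟩
      rw [a1, Nat.primeFactors_pow _ (mul_ne_zero hn0 (by omega)), hpf]

end Pool.Agent.Results.MP_6d14ae_al.AllCoprimePairs
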